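import Mathlib
import Pool.Agent.W223.AC.MasterR
import Pool.Agent.W223.AC.MasterK
import Pool.Agent.W223.AC.Split
import Pool.Agent.W803.AC.SUMN

/-!
# One exceptional set on the line (helper337)
-/

set_option autoImplicit false

namespace Pool.Agent.R337.UE

open Polynomial IntermediateField IsDedekindDomain NumberField
open Pool.Agent.W223.VD (cnt)
open Pool.Agent.W223.AC (pt)
open Pool.Agent.W223.AC.MR (height alpha exponent)

/-- the numbers of degree at least two which violate the truncated inequality on the line -/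
def exc {q : ℕ} (a : Fin q → ℚ) (κ : ℝ) : Set ℂ :=
  {x | ∃ f : ℤ[X], Irreducible f ∧ 2 ≤ f.natDegree ∧ aeval x f = 0 ∧
    Pool.Agent.W223.VD.Points.truncated ∅ (fun j => pt (a j)) x +
      Pool.Agent.W223.VD.Points.logDisc x < (q - κ) * height f}

lemma mahler_dvd {f g : ℤ[X]} (hg : g ≠ 0) (h : f ∣ g) :
    (f.map (Int.castRingHom ℂ)).mahlerMeasure ≤ (g.map (Int.castRingHom ℂ)).mahlerMeasure := by
  obtain ⟨k, rfl⟩ := h
  have hk : k ≠ 0 := right_ne_zero_of_mul hg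
  rw [Polynomial.map_mul, mahlerMeasure_mul]
  exact le_mul_of_one_le_right (mahlerMeasure_nonneg _)
    (Pool.Agent.H813R3.Voj.one_le_mahler hk)

lemma dvd_of_root {x : ℂ} {f g : ℤ[X]} (hf : Irreducible f) (hg : Irreducible g)
    (hfd : 0 < f.natDegree) (hgd : 0 < g.natDegree) (hfx : aeval x f = 0) (hgx : aeval x g = 0) :
    f ∣ g := by
  have hfp : f.IsPrimitive := hf.isPrimitive hfd.ne'
  have hgp : g.IsPrimitive := hg.isPrimitive hgd.ne'
  rw [IsPrimitive.Int.dvd_iff_map_cast_dvd_map_cast f g hfp]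
  have hfi : Irreducible (f.map (Int.castRingHom ℚ)) :=
    (IsPrimitive.Int.irreducible_iff_irreducible_map_cast hfp).mp hf
  have e : ∀ h : ℤ[X], aeval x h = 0 → aeval x (h.map (Int.castRingHom ℚ)) = 0 := by
    intro h hh
    have h1 : (h.map (Int.castRingHom ℚ)) = h.map (algebraMap ℤ ℚ) := rfl
    rw [h1, aeval_map_algebraMap]
    exact hh
  have h1 := minpoly.dvd ℚ x (e f hfx)
  have h2 := minpoly.dvd ℚ x (e g hgx)
  have hint : IsIntegral ℚ x := by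
    have : IsAlgebraic ℚ x := ⟨f.map (Int.castRingHom ℚ), hfi.ne_zero, e f hfx⟩
    exact this.isIntegral
  have h3 : Associated (minpoly ℚ x) (f.map (Int.castRingHom ℚ)) :=
    (minpoly.irreducible hint).associated_of_dvd hfi h1
  exact h3.symm.dvd.trans h2

lemma height_unique {x : ℂ} {f g : ℤ[X]} (hf : Irreducible f) (hg : Irreducible g)
    (hfd : 0 < f.natDegree) (hgd : 0 < g.natDegree) (hfx : aeval x f = 0) (hgx : aeval x g = 0) :
    height f = height g := by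
  have h1 := dvd_of_root hf hg hfd hgd hfx hgx
  have h2 := dvd_of_root hg hf hgd hfd hgx hfx
  have h3 := le_antisymm (mahler_dvd hg.ne_zero h1) (mahler_dvd hf.ne_zero h2)
  have h4 := le_antisymm (natDegree_le_of_dvd h1 hg.ne_zero) (natDegree_le_of_dvd h2 hf.ne_zero)
  unfold height
  rw [h3, h4]

lemma natDegree_unique {x : ℂ} {f g : ℤ[X]} (hf : Irreducible f) (hg : Irreducible g)
    (hfd : 0 < f.natDegree) (hgd : 0 < g.natDegree) (hfx : aeval x f = 0) (hgx : aeval x g = 0) :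
    f.natDegree = g.natDegree := by
  have h1 := dvd_of_root hf hg hfd hgd hfx hgx
  have h2 := dvd_of_root hg hf hgd hfd hgx hfx
  exact le_antisymm (natDegree_le_of_dvd h1 hg.ne_zero) (natDegree_le_of_dvd h2 hf.ne_zero)

lemma height_nonneg {f : ℤ[X]} (hf : f ≠ 0) : 0 ≤ height f :=
  div_nonneg (Real.log_nonneg (Pool.Agent.H813R3.Voj.one_le_mahler hf)) (Nat.cast_nonneg _)

/-- the exponent is smaller than the trivial one -/
theorem exponent_lt {r q : ℕ} (hr : 2 ≤ r) (hq : 3 ≤ q) {c η κ : ℝ} (hc : 1 ≤ c) (hη : 0 < η)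
    (hκ : 0 ≤ κ) : exponent (alpha r c η) r q κ < r + 1 := by
  have hα := Pool.Agent.W223.AC.MR.one_le_alpha hr hc hη
  obtain ⟨α, hαd⟩ : ∃ α, α = alpha r c η := ⟨_, rfl⟩
  rw [← hαd] at hα ⊢
  obtain ⟨h1, h2, h3, h4⟩ := Pool.Agent.W223.AC.MR.exponent_aux hα hr hq
  unfold exponent
  obtain ⟨m, hm⟩ : ∃ m : ℝ, m = ((min q (r + 1) : ℕ) : ℝ) := ⟨_, rfl⟩
  rw [← hm] at h1 h2 h3 ⊢
  refine lt_of_le_of_lt (min_le_right _ _) ?_
  have hden : 0 < (q : ℝ) * α + m - 2 := by linarith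
  rw [div_lt_iff₀ hden]
  have hr2 : (2 : ℝ) ≤ r := by exact_mod_cast hr
  have h5 : 0 < m * (r + 1 - 2 + α * κ) := by
    have h6 : 0 ≤ α * κ := mul_nonneg (by linarith) hκ
    exact mul_pos (by linarith) (by linarith)
  nlinarith

/-- the number of the exceptional numbers of bounded height -/
theorem exc_count : ∀ η : ℝ, 0 < η → ∃ c : ℝ, 1 ≤ c ∧ ∀ (r q : ℕ), 2 ≤ r → 3 ≤ q →
    ∀ a : Fin q → ℚ, Function.Injective a → ∀ κ δ : ℝ, κ ≤ q → 0 < δ →
    ∃ C : ℝ, ∀ B : ℝ, 1 ≤ B →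
      {x : ℂ | x ∈ exc a κ ∧ ∃ f : ℤ[X], Irreducible f ∧ f.natDegree = r ∧ aeval x f = 0 ∧
        height f ≤ Real.log B}.Finite ∧
      (({x : ℂ | x ∈ exc a κ ∧ ∃ f : ℤ[X], Irreducible f ∧ f.natDegree = r ∧ aeval x f = 0 ∧
        height f ≤ Real.log B}.ncard : ℝ)) ≤
        C * B ^ ((r : ℝ) * exponent (alpha r c η) r q κ + δ) := by
  intro η hη
  obtain ⟨c, hc, h⟩ := Pool.Agent.W223.VD.Points.result η hη
  refine ⟨c, hc, ?_⟩
  intro r q hr hq a ha κ δ hκ hδ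
  obtain ⟨C, hC⟩ := h r q hr hq (fun j => pt (a j)) (fun j => Pool.Agent.W223.AC.pt_coprime (a j))
    (fun i j hij => Pool.Agent.W223.AC.pt_inj fun h => hij (ha h)) ∅
    (fun p hp => absurd hp (Finset.notMem_empty p)) κ 0 δ hκ hδ
  refine ⟨C, fun B hB => ?_⟩
  obtain ⟨h1, h2⟩ := hC B hB
  have hsub : {x : ℂ | x ∈ exc a κ ∧ ∃ f : ℤ[X], Irreducible f ∧ f.natDegree = r ∧
      aeval x f = 0 ∧ height f ≤ Real.log B} ⊆
      Pool.Agent.W223.VD.Points.exceptional ∅ (fun j => pt (a j)) r κ 0 B := by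
    rintro x ⟨⟨f, hf, hd, hx, hlt⟩, g, hg, hgd, hgx, hh⟩
    have e := height_unique hf hg (by omega) (by omega) hx hgx
    have e' := natDegree_unique hf hg (by omega) (by omega) hx hgx
    refine ⟨f, hf, e'.trans hgd, hx, ?_, ?_⟩
    · show height f ≤ _
      rw [e]
      exact hh
    · show _ + _ + 0 < _ * height f
      rw [add_zero]
      exact hlt
  refine ⟨h1.subset hsub, ?_⟩
  refine le_trans ?_ h2
  exact_mod_cast Set.ncard_le_ncard hsub h1

/-- from `ℚ(x)` to all larger fields -/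
theorem toL {q : ℕ} (a : Fin q → ℚ) (κ : ℝ) {x : ℂ} {f : ℤ[X]}
    (hf : Irreducible f) (hd : 2 ≤ f.natDegree) (hx : aeval x f = 0) (hE : x ∉ exc a κ)
    (L : IntermediateField ℚ ℂ) [NumberField L] (ξ : L) (hξ : (ξ : ℂ) = x) :
    (q - κ) * height f ≤ cnt ∅ (fun j => pt (a j)) ξ / Module.finrank ℚ L +
      Real.log |(discr L : ℝ)| / Module.finrank ℚ L := by
  have hcon : ¬ (Pool.Agent.W223.VD.Points.truncated ∅ (fun j => pt (a j)) x +
      Pool.Agent.W223.VD.Points.logDisc x < (q - κ) * height f) := fun h =>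
    hE ⟨f, hf, hd, hx, h⟩
  rw [not_lt] at hcon
  have hxL : x ∈ L := by
    rw [← hξ]
    exact ξ.2
  obtain ⟨hK, hfr⟩ := Pool.Agent.W223.VD.field_data (by omega) hf rfl hx
  have hle : ℚ⟮x⟯ ≤ L := IntermediateField.adjoin_simple_le_iff.mpr hxL
  let : Algebra ℚ⟮x⟯ L := (IntermediateField.inclusion hle).toRingHom.toAlgebra
  have hgen : algebraMap ℚ⟮x⟯ L (AdjoinSimple.gen ℚ x) = ξ := Subtype.ext hξ.symm
  have hxf : aeval (AdjoinSimple.gen ℚ x) f = 0 := by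
    have h9 : (aeval (AdjoinSimple.gen ℚ x) f : ℚ⟮x⟯).1 = 0 := by
      have := aeval_algebraMap_apply ℂ (AdjoinSimple.gen ℚ x) f
      have h10 : algebraMap ℚ⟮x⟯ ℂ (AdjoinSimple.gen ℚ x) = x := rfl
      rw [h10, hx] at this
      exact this.symm
    exact Subtype.ext h9
  have hlin : ∀ j, Pool.Agent.W223.CV.lin (pt (a j)) (AdjoinSimple.gen ℚ x) ≠ 0 := fun j =>
    Pool.Agent.W598.VD.TR.L_ne_zero _ f (pt (a j)) hxf
      (Pool.Agent.W223.VD.value_ne_zero hd hf rfl (pt (a j)) (Pool.Agent.W223.AC.pt_coprime (a j)))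
  have e1 : Pool.Agent.W223.VD.Points.truncated ∅ (fun j => pt (a j)) x =
      cnt ∅ (fun j => pt (a j)) (AdjoinSimple.gen ℚ x) / Module.finrank ℚ ℚ⟮x⟯ := by
    unfold Pool.Agent.W223.VD.Points.truncated
    rw [dif_pos hK]
    rfl
  have e2 : Pool.Agent.W223.VD.Points.logDisc x =
      Real.log |(discr ℚ⟮x⟯ : ℝ)| / Module.finrank ℚ ℚ⟮x⟯ := by
    unfold Pool.Agent.W223.VD.Points.logDisc
    rw [dif_pos hK]
  rw [e1, e2] at hcon
  have hrel := Pool.Agent.W469.CV.REL.t ℚ⟮x⟯ L q ∅ (fun j => pt (a j)) (AdjoinSimple.gen ℚ x) hlin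
  rw [hgen] at hrel
  have hkpos : (0 : ℝ) < Module.finrank ℚ ℚ⟮x⟯ := by exact_mod_cast Module.finrank_pos
  have hLpos : (0 : ℝ) < Module.finrank ℚ L := by exact_mod_cast Module.finrank_pos
  have htow : (Module.finrank ℚ L : ℝ) =
      Module.finrank ℚ ℚ⟮x⟯ * Module.finrank ℚ⟮x⟯ L := by
    exact_mod_cast (Module.finrank_mul_finrank ℚ ℚ⟮x⟯ L).symm
  have h4 : cnt ∅ (fun j => pt (a j)) (AdjoinSimple.gen ℚ x) / Module.finrank ℚ ℚ⟮x⟯ +
      Real.log |(discr ℚ⟮x⟯ : ℝ)| / Module.finrank ℚ ℚ⟮x⟯ ≤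
      cnt ∅ (fun j => pt (a j)) ξ / Module.finrank ℚ L +
        Real.log |(discr L : ℝ)| / Module.finrank ℚ L := by
    rw [← add_div, ← add_div, div_le_div_iff₀ hkpos hLpos, htow]
    have : (cnt ∅ (fun j => pt (a j)) (AdjoinSimple.gen ℚ x) +
        Real.log |(discr ℚ⟮x⟯ : ℝ)|) *
        (Module.finrank ℚ ℚ⟮x⟯ * Module.finrank ℚ⟮x⟯ L) =
        (Module.finrank ℚ⟮x⟯ L * (Real.log |(discr ℚ⟮x⟯ : ℝ)| +
          cnt ∅ (fun j => pt (a j)) (AdjoinSimple.gen ℚ x))) * Module.finrank ℚ ℚ⟮x⟯ := by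
      ring
    rw [this]
    refine mul_le_mul_of_nonneg_right ?_ hkpos.le
    linarith
  exact hcon.trans h4

open Classical in
theorem cnt_cc {L : Type} [Field L] [NumberField L] {q : ℕ} (S : Finset ℕ) (P : Fin q → ℤ × ℤ)
    (ξ : L) : cnt S P ξ = Pool.Agent.W223.CV.cc S (fun v : HeightOneSpectrum (𝓞 L) =>
      ∃ j, v.valuation L (((P j).1 : L) - ξ * ((P j).2 : L)) < max (v.valuation L ξ) 1) := by
  unfold cnt Pool.Agent.W223.CV.cc
  refine finsum_congr fun v => ?_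
  by_cases h : (∀ p ∈ S, (p : 𝓞 L) ∉ v.asIdeal) ∧
      ∃ j, v.valuation L (((P j).1 : L) - ξ * ((P j).2 : L)) < max (v.valuation L ξ) 1
  · rw [Pool.Agent.W223.CV.ct_pos h]
    exact if_pos h
  · rw [Pool.Agent.W223.CV.ct_neg h]
    exact if_neg h

/-- leaving out finitely many primes -/
theorem cnt_out {L : Type} [Field L] [NumberField L] {q : ℕ} (a : Fin q → ℚ) (T : Finset ℕ)
    (hT : ∀ p ∈ T, p.Prime) (ξ : L) (hξ : ∀ j, ξ ≠ (a j : L)) :
    cnt ∅ (fun j => pt (a j)) ξ ≤ cnt T (fun j => pt (a j)) ξ +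
      Module.finrank ℚ L * ∑ p ∈ T, Real.log p := by
  have hlin : ∀ j, (((pt (a j)).1 : L) - ξ * ((pt (a j)).2 : L)) ≠ 0 := by
    intro j h
    apply hξ j
    have h1 : ((a j : ℚ) : L) = (((a j).num : ℤ) : L) / (((a j).den : ℤ) : L) := by
      have := Rat.cast_def (K := L) (a j)
      push_cast
      exact this
    have h2 : (((a j).den : ℤ) : L) ≠ 0 := by exact_mod_cast (a j).den_nz
    rw [h1, eq_div_iff h2]
    exact (sub_eq_zero.mp h).symm
  have hfin : {v : HeightOneSpectrum (𝓞 L) | ∃ j, v.valuation L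
      (((pt (a j)).1 : L) - ξ * ((pt (a j)).2 : L)) < max (v.valuation L ξ) 1}.Finite := by
    refine (Set.finite_iUnion fun j =>
      Pool.Agent.W598.VD.TR.finite_support (K := L) ξ _ (hlin j)).subset ?_
    rintro v ⟨j, hj⟩
    exact Set.mem_iUnion.mpr ⟨j, hj⟩
  rw [cnt_cc, cnt_cc]
  exact Pool.Agent.W223.AC.cc_outside Pool.Agent.W803.AC.t T hT _ hfin

/-- the height of `x - a` over all fields -/
theorem sub_bound (x : ℂ) (hx : IsIntegral ℚ x) (a : ℚ) : ∃ c : ℝ, 0 ≤ c ∧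
    ∀ (L : IntermediateField ℚ ℂ) [NumberField L] (ξ : L), (ξ : ℂ) = x →
      Height.logHeight₁ (ξ - (a : L)) ≤ Module.finrank ℚ L * c := by
  have hfd : FiniteDimensional ℚ ℚ⟮x⟯ := adjoin.finiteDimensional hx
  have hK : NumberField ℚ⟮x⟯ := ⟨⟩
  refine ⟨Height.logHeight₁ (AdjoinSimple.gen ℚ x - (a : ℚ⟮x⟯)),
    Height.zero_le_logHeight₁ _, ?_⟩
  intro L _ ξ hξ
  have hxL : x ∈ L := by
    rw [← hξ]
    exact ξ.2
  have hle : ℚ⟮x⟯ ≤ L := IntermediateField.adjoin_simple_le_iff.mpr hxL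
  let : Algebra ℚ⟮x⟯ L := (IntermediateField.inclusion hle).toRingHom.toAlgebra
  have hgen : algebraMap ℚ⟮x⟯ L (AdjoinSimple.gen ℚ x) = ξ := Subtype.ext hξ.symm
  have h1 : ξ - (a : L) = algebraMap ℚ⟮x⟯ L (AdjoinSimple.gen ℚ x - (a : ℚ⟮x⟯)) := by
    rw [map_sub, hgen, map_ratCast]
  rw [h1, Height.logHeight₁_eq_log_mulHeight₁, Height.logHeight₁_eq_log_mulHeight₁,
    Pool.Agent.W223.AC.MK.log_height_ext]
  have h2 : 0 ≤ Real.log (Height.mulHeight₁ (AdjoinSimple.gen ℚ x - (a : ℚ⟮x⟯))) := by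
    rw [← Height.logHeight₁_eq_log_mulHeight₁]
    exact Height.zero_le_logHeight₁ _
  refine mul_le_mul_of_nonneg_right ?_ h2
  have h3 : Module.finrank ℚ L = Module.finrank ℚ ℚ⟮x⟯ * Module.finrank ℚ⟮x⟯ L :=
    (Module.finrank_mul_finrank ℚ ℚ⟮x⟯ L).symm
  have h4 : 0 < Module.finrank ℚ ℚ⟮x⟯ := Module.finrank_pos
  rw [h3]
  exact_mod_cast Nat.le_mul_of_pos_left _ h4

/-- a bound for the heights of the members of a finite set -/
theorem height_bound (x : ℂ) : ∃ c : ℝ, 0 ≤ c ∧ ∀ f : ℤ[X],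
    Irreducible f → 2 ≤ f.natDegree → aeval x f = 0 → height f ≤ c := by
  by_cases h : ∃ f : ℤ[X], Irreducible f ∧ 2 ≤ f.natDegree ∧ aeval x f = 0
  · obtain ⟨f, hf, hd, hx⟩ := h
    refine ⟨height f, height_nonneg hf.ne_zero, ?_⟩
    intro g hg hgd hgx
    rw [height_unique hg hf (by omega) (by omega) hgx hx]
  · refine ⟨0, le_rfl, ?_⟩
    intro f hf hd hx
    exact absurd ⟨f, hf, hd, hx⟩ h

end Pool.Agent.R337.UE
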