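import Mathlib
import Pool.Agent.R337.UE.Line
import Pool.Agent.W976.AC.EX
import Pool.Agent.W460.AC.NORM
import Pool.Agent.W597.AC.LOC
import Pool.Agent.W193.AC.FINQ
import Pool.Agent.W398.AC.DIM
import Pool.Agent.W131.AC.GROW
import Pool.Agent.W989.AC.MULT
import Pool.Agent.W410.AC.HTG
import Pool.Agent.W756.AC.LOCP
import Pool.Agent.W223.AC.SUMP

/-!
# The proximity functions on the curves outside one exceptional set (helper337)
-/

set_option autoImplicit false

namespace Pool.Agent.R337.UE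

open Polynomial IntermediateField IsDedekindDomain NumberField
open Pool.Agent.W223.VD (cnt)
open Pool.Agent.W223.AC (pt tt lamF lamI mS lamF_nonneg lamI_nonneg)
open Pool.Agent.W223.AC.MR (height alpha exponent)

/-- the trivial bound of the proximity function -/
theorem prox_le {A : Type} [CommRing A] {s : ℕ} {L : Type} [Field L] [NumberField L]
    (S : Finset ℕ) (z : Fin (s + 1) → A) (φ : A →+* L) (hz : φ (z 0) ≠ 0) :
    {v : HeightOneSpectrum (𝓞 L) | lamF z φ v ≠ 0}.Finite ∧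
    ∑ w : InfinitePlace L, (w.mult : ℝ) * lamI z φ w + mS S z φ ≤
      Height.logHeight₁ (φ (z 0)) := by
  obtain ⟨hf, h1⟩ := Pool.Agent.W223.AC.SUMP.t L (φ (z 0)) 1 1 1 (fun v => lamF z φ v)
    (fun w => lamI z φ w) hz one_ne_zero le_rfl le_rfl (fun v => lamF_nonneg z φ v)
    (by
      intro v hv
      have h2 := Pool.Agent.W223.AC.sup_aux (fun i => Pool.Agent.W125.CV.fv v (φ (z i)))
        ((Pool.Agent.W125.CV.fv v).pos hz) hv 0
      rw [Nat.cast_one, map_one, mul_one, Nat.cast_one, one_mul]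
      exact h2)
    (fun w => lamI_nonneg z φ w)
    (by
      intro w hw
      have h2 := Pool.Agent.W223.AC.sup_aux (fun i => w (φ (z i)))
        ((InfinitePlace.pos_iff).mpr hz) hw 0
      rw [Nat.cast_one, one_mul, one_mul]
      exact h2)
  refine ⟨hf, ?_⟩
  have h2 : mS S z φ ≤ ∑ᶠ v : HeightOneSpectrum (𝓞 L), lamF z φ v := by
    unfold mS
    rw [finsum_eq_sum_of_support_subset (s := hf.toFinset), finsum_eq_sum_of_support_subset
      (s := hf.toFinset)]
    · refine Finset.sum_le_sum fun v _ => ?_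
      split_ifs
      · exact le_rfl
      · exact lamF_nonneg z φ v
    · intro v hv
      rw [Set.Finite.coe_toFinset]
      exact hv
    · intro v hv
      rw [Function.mem_support] at hv
      rw [Set.Finite.coe_toFinset]
      intro h
      apply hv
      rw [h, ite_self]
  rw [Real.log_one, Nat.cast_one, Real.log_one, add_zero, mul_zero, add_zero, one_mul] at h1
  rw [Height.logHeight₁_eq_log_mulHeight₁]
  linarith

lemma logdisc_nonneg (L : Type) [Field L] [NumberField L] :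
    0 ≤ Real.log |(discr L : ℝ)| := by
  refine Real.log_nonneg ?_
  have h5 : (1 : ℤ) ≤ |discr L| := Int.one_le_abs (discr_ne_zero L)
  have h6 : |(discr L : ℝ)| = ((|discr L| : ℤ) : ℝ) := by push_cast; rfl
  rw [h6]
  exact_mod_cast h5

/-- **proximity functions on one curve outside the exceptional set** -/
theorem prox (A : Type) [CommRing A] [IsDedekindDomain A] [Algebra ℚ A] [Algebra ℚ[X] A]
    [IsScalarTower ℚ ℚ[X] A] [Module.Finite ℚ[X] A] [FaithfulSMul ℚ[X] A]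
    (q : ℕ) (hq : 3 ≤ q) (a : Fin q → ℚ) (κ : ℝ) (u : Fin q → ℕ)
    (y : ∀ j, Fin (u j + 1) → A)
    (hy0 : ∀ j, y j 0 = tt A - algebraMap ℚ[X] A (C (a j)))
    (hyr : ∀ j i, y j i ∈ (Ideal.span {tt A - algebraMap ℚ[X] A (C (a j))}).radical)
    (ε : ℝ) (hε : 0 < ε) :
    ∃ C₀ : ℝ, ∀ x : ℂ, x ∉ exc a κ → ∀ f : ℤ[X], Irreducible f → 2 ≤ f.natDegree →
      aeval x f = 0 → ∀ (L : IntermediateField ℚ ℂ) [NumberField L] (φ : A →+* L),
      (φ (tt A) : ℂ) = x →
      (∀ j, {v : HeightOneSpectrum (𝓞 L) | lamF (y j) φ v ≠ 0}.Finite) ∧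
      ∀ S : Finset ℕ, (∀ p ∈ S, p.Prime) →
        (∑ j, (∑ w : InfinitePlace L, (w.mult : ℝ) * lamI (y j) φ w + mS S (y j) φ)) /
            Module.finrank ℚ L +
          (q - (∑ j, (Module.finrank ℚ (A ⧸ Ideal.span (Set.range (y j))) : ℝ)) /
            Module.finrank ℚ[X] A - κ - ε) * height f ≤
        Real.log |(discr L : ℝ)| / Module.finrank ℚ L + ∑ p ∈ S, Real.log p + C₀ := by
  classical
  have hq0 : (0 : ℝ) < q := by exact_mod_cast (show 0 < q by omega)
  obtain ⟨M, Ck, G, hM, hCk, hG, hkey⟩ := Pool.Agent.W223.AC.keyG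
    (Pool.Agent.W223.AC.nbp (Pool.Agent.W976.AC.EX.t Pool.Agent.W398.AC.DIM.t
      Pool.Agent.W193.AC.FINQ.t Pool.Agent.W989.AC.MULT.t) Pool.Agent.W756.AC.t
      (Pool.Agent.W410.AC.t Pool.Agent.W131.AC.t) Pool.Agent.W223.AC.SUMP.t
      Pool.Agent.W460.AC.t)
    Pool.Agent.W989.AC.MULT.t Pool.Agent.W597.AC.t A a (fun j : Fin q => j) u y hy0
    (by
      intro k
      have h1 : (Finset.univ.filter fun l : Fin q => l = k) = {k} := by
        ext l
        simp
      rw [h1, Finset.prod_singleton, Ideal.span_le]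
      rintro _ ⟨i, rfl⟩
      exact hyr k i) (ε / q) (by positivity)
  have hTp : ∀ p ∈ M.primeFactors, p.Prime := fun p hp => Nat.prime_of_mem_primeFactors hp
  -- the roots of `G`
  have hfinG : (G.rootSet ℂ).Finite := Polynomial.rootSet_finite G ℂ
  have hsb : ∀ (x : ℂ) (j : Fin q), ∃ c : ℝ, 0 ≤ c ∧ (IsIntegral ℚ x →
      ∀ (L : IntermediateField ℚ ℂ) [NumberField L] (ξ : L), (ξ : ℂ) = x →
        Height.logHeight₁ (ξ - (a j : L)) ≤ Module.finrank ℚ L * c) := by
    intro x j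
    by_cases hx : IsIntegral ℚ x
    · obtain ⟨c, hc, h⟩ := sub_bound x hx (a j)
      exact ⟨c, hc, fun _ => h⟩
    · exact ⟨0, le_rfl, fun h => absurd h hx⟩
  choose cs hcs0 hcs using hsb
  choose ch hch0 hch using height_bound
  obtain ⟨ν, hν⟩ : ∃ ν : ℝ, ν = (∑ j, (Module.finrank ℚ (A ⧸ Ideal.span (Set.range (y j))) : ℝ)) /
    Module.finrank ℚ[X] A := ⟨_, rfl⟩
  rw [← hν]
  obtain ⟨cc₀, hcc₀⟩ : ∃ cc₀ : ℂ → ℝ, cc₀ = fun x =>
    ∑ j, cs x j + |(q : ℝ) - ν - κ - ε| * ch x := ⟨_, rfl⟩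
  have hcc0 : ∀ x, 0 ≤ cc₀ x := by
    intro x
    rw [hcc₀]
    exact add_nonneg (Finset.sum_nonneg fun j _ => hcs0 x j)
      (mul_nonneg (abs_nonneg _) (hch0 x))
  have hT0 : 0 ≤ ∑ p ∈ M.primeFactors, Real.log (p : ℝ) :=
    Finset.sum_nonneg fun p _ => Real.log_natCast_nonneg p
  have hR0 : 0 ≤ ∑ x ∈ hfinG.toFinset, cc₀ x := Finset.sum_nonneg fun x _ => hcc0 x
  refine ⟨q * Ck + ∑ p ∈ M.primeFactors, Real.log (p : ℝ) + ∑ x ∈ hfinG.toFinset, cc₀ x, ?_⟩
  intro x hxE f hf hd hx L _ φ hφ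
  have hxf := Pool.Agent.W223.AC.MR.aeval_L _ hφ f hx
  have hne := fun k => Pool.Agent.W223.AC.MR.ne_rat hd hf rfl hxf (a k)
  have hy : ∀ j, φ (y j 0) = φ (tt A) - (a j : L) := by
    intro j
    rw [hy0 j, map_sub]
    have : φ (algebraMap ℚ[X] A (Polynomial.C (a j))) = (a j : L) :=
      eq_ratCast (φ.comp ((algebraMap ℚ[X] A).comp Polynomial.C)) (a j)
    rw [this]
  have hz0 : ∀ l, φ (y l 0) ≠ 0 := by
    intro l
    rw [hy l]
    exact sub_ne_zero.mpr (hne l)
  have hfin := fun j => (prox_le ∅ (y j) φ (hz0 j)).1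
  refine ⟨hfin, ?_⟩
  intro S hS
  have hLpos : (0 : ℝ) < Module.finrank ℚ L := by exact_mod_cast Module.finrank_pos
  have hdL := logdisc_nonneg L
  have hS0 : 0 ≤ ∑ p ∈ S, Real.log (p : ℝ) :=
    Finset.sum_nonneg fun p _ => Real.log_natCast_nonneg p
  by_cases hGx : aeval x G = 0
  · have hxR : x ∈ hfinG.toFinset :=
      (Set.Finite.mem_toFinset hfinG).2 ((Polynomial.mem_rootSet_of_ne hG).mpr hGx)
    have hint : IsIntegral ℚ x := by
      have : IsAlgebraic ℚ x := ⟨G, hG, hGx⟩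
      exact this.isIntegral
    have h1 : (∑ j, (∑ w : InfinitePlace L, (w.mult : ℝ) * lamI (y j) φ w + mS S (y j) φ)) /
        Module.finrank ℚ L ≤ ∑ j, cs x j := by
      rw [div_le_iff₀ hLpos, Finset.sum_mul]
      refine Finset.sum_le_sum fun j _ => ?_
      refine (prox_le S (y j) φ (hz0 j)).2.trans ?_
      rw [hy j, mul_comm]
      exact hcs x j hint L (φ (tt A)) hφ
    have h2 : ((q : ℝ) - ν - κ - ε) * height f ≤ |(q : ℝ) - ν - κ - ε| * ch x := by
      have h3 := height_nonneg hf.ne_zero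
      exact mul_le_mul (le_abs_self _) (hch x f hf hd hx) h3 (abs_nonneg _)
    have h3 : cc₀ x ≤ ∑ x ∈ hfinG.toFinset, cc₀ x :=
      Finset.single_le_sum (fun z (_ : z ∈ hfinG.toFinset) => hcc0 z) hxR
    have h4 : cc₀ x = ∑ j, cs x j + |(q : ℝ) - ν - κ - ε| * ch x := by rw [hcc₀]
    have h5 : 0 ≤ Real.log |(discr L : ℝ)| / Module.finrank ℚ L := div_nonneg hdL hLpos.le
    have h6 : 0 ≤ (q : ℝ) * Ck := mul_nonneg hq0.le hCk
    linarith
  · obtain ⟨hk1, hk2⟩ := hkey L φ (Pool.Agent.W223.AC.MR.aeval_ne _ hφ G hGx) hne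
    have hnf : ∀ l, {v : HeightOneSpectrum (𝓞 L) | Pool.Agent.W223.AC.NearP (y l) φ v}.Finite :=
      fun l => Pool.Agent.W223.AC.near_finite (y l) φ (hz0 l)
    have hk1 := (hk1 ∅).trans ((Pool.Agent.W223.AC.cc_outside Pool.Agent.W803.AC.t S hS _ (by
        refine (Set.finite_iUnion fun l => hnf l).subset ?_
        rintro v ⟨l, -, hv⟩
        exact Set.mem_iUnion.mpr ⟨l, hv⟩)).trans
      (add_le_add_left (Pool.Agent.W223.CV.cc_exists S Finset.univ
        (fun l (v : HeightOneSpectrum (𝓞 L)) => Pool.Agent.W223.AC.NearP (y l) φ v) hnf) _))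
    have hMH := Pool.Agent.W469.CV.MH.t L (φ (tt A)) f hf (by omega) hxf
    have e4 : height f = Real.log (Pool.Agent.H813R3.Voj.mahler f) / f.natDegree := rfl
    rw [← e4] at hMH
    -- the sum over the fibres
    have h5 : ∀ l, Pool.Agent.W223.CV.cc S (fun v : HeightOneSpectrum (𝓞 L) =>
          Pool.Agent.W223.AC.NearP (y l) φ v) +
        (∑ w : InfinitePlace L, (w.mult : ℝ) * lamI (y l) φ w + mS S (y l) φ) ≤
        ((Module.finrank ℚ (A ⧸ Ideal.span (Set.range (y l))) : ℝ) /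
            Module.finrank ℚ[X] A + ε / q) * (Module.finrank ℚ L * height f) +
          Module.finrank ℚ L * Ck := by
      intro l
      obtain ⟨h6, h7⟩ := hk2 l
      have h8 := Pool.Agent.W223.AC.split_prox (y l) φ S (hz0 l) h6
      have h9 : ((Module.finrank ℚ (A ⧸ Ideal.span (Set.range (y l))) : ℝ) /
            Module.finrank ℚ[X] A + ε / q) *
              Real.log (Height.mulHeight₁ (φ (Pool.Agent.W223.AC.tt A))) ≤
          ((Module.finrank ℚ (A ⧸ Ideal.span (Set.range (y l))) : ℝ) /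
            Module.finrank ℚ[X] A + ε / q) * (Module.finrank ℚ L * height f) :=
        mul_le_mul_of_nonneg_left hMH (by positivity)
      linarith
    have h6 := Finset.sum_le_sum fun l (_ : l ∈ Finset.univ) => h5 l
    rw [Finset.sum_add_distrib] at h6
    have h7 : ∑ l, (((Module.finrank ℚ (A ⧸ Ideal.span (Set.range (y l))) : ℝ) /
            Module.finrank ℚ[X] A + ε / q) * (Module.finrank ℚ L * height f) +
          Module.finrank ℚ L * Ck) =
        (ν + ε) * height f * Module.finrank ℚ L + q * Ck * Module.finrank ℚ L := by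
      rw [Finset.sum_add_distrib, ← Finset.sum_mul, Finset.sum_add_distrib, ← Finset.sum_div,
        Finset.sum_const, Finset.sum_const, Finset.card_univ, Fintype.card_fin, nsmul_eq_mul,
        nsmul_eq_mul, mul_div_cancel₀ _ hq0.ne', ← hν]
      ring
    rw [h7] at h6
    have hL := toL a κ hf hd hx hxE L (φ (tt A)) hφ
    have hout := cnt_out a M.primeFactors hTp (φ (tt A)) hne
    rw [Finset.empty_union] at hk1
    obtain ⟨c1, hc1⟩ : ∃ c1 : ℝ, c1 = cnt ∅ (fun j => pt (a j)) (φ (tt A)) := ⟨_, rfl⟩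
    obtain ⟨c2, hc2⟩ : ∃ c2 : ℝ, c2 = cnt M.primeFactors (fun j => pt (a j)) (φ (tt A)) :=
      ⟨_, rfl⟩
    obtain ⟨D, hD⟩ : ∃ D : ℝ, D = (Module.finrank ℚ L : ℝ) := ⟨_, rfl⟩
    obtain ⟨c3, hc3⟩ : ∃ c3 : ℝ, c3 = ∑ l, Pool.Agent.W223.CV.cc S
      (fun v : HeightOneSpectrum (𝓞 L) => Pool.Agent.W223.AC.NearP (y l) φ v) := ⟨_, rfl⟩
    obtain ⟨W, hW⟩ : ∃ W : ℝ, W = ∑ j, (∑ w : InfinitePlace L, (w.mult : ℝ) * lamI (y j) φ w +
      mS S (y j) φ) := ⟨_, rfl⟩
    rw [← hc2] at hk1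
    rw [← hc1, ← hc2] at hout
    rw [← hc1] at hL
    rw [← hW]
    have hk1' : c2 ≤ c3 + D * ∑ p ∈ S, Real.log p := by
      rw [hc3, hD]
      exact hk1
    have h6' : c3 + W ≤ (ν + ε) * height f * D + q * Ck * D := by
      rw [hc3, hW, hD]
      exact h6
    rw [← hD] at hout hL hLpos ⊢
    have h8 : (c1 + W) / D ≤ (ν + ε) * height f + q * Ck + ∑ p ∈ S, Real.log (p : ℝ) +
        ∑ p ∈ M.primeFactors, Real.log (p : ℝ) := by
      rw [div_le_iff₀ hLpos]
      linarith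
    rw [add_div] at h8
    have h9 : ((q : ℝ) - ν - κ - ε) * height f = (q - κ) * height f - (ν + ε) * height f := by
      ring
    rw [h9]
    linarith

end Pool.Agent.R337.UE
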