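import Mathlib
import Pool.Agent.R337.UE.Line
import Pool.Agent.W976.AC.EX
import Pool.Agent.W460.AC.NORM
import Pool.Agent.W597.AC.LOC
import Pool.Agent.W193.AC.FINQ
import Pool.Agent.W398.AC.DIM
import Pool.Agent.W131.AC.GROW
import Pool.Agent.W395.AC.LOCM
import Pool.Agent.W989.AC.MULT
import Pool.Agent.W410.AC.HTG

/-!
# The truncated counting functions on the curves outside one exceptional set (helper337)
-/

set_option autoImplicit false

namespace Pool.Agent.R337.UE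

open Polynomial IntermediateField IsDedekindDomain NumberField
open Pool.Agent.W223.VD (cnt)
open Pool.Agent.W223.AC (pt tt)
open Pool.Agent.W223.AC.MR (height alpha exponent)

open Pool.Agent.W223.AC in
theorem partNB : StmtNB :=
  nb (Pool.Agent.W976.AC.EX.t Pool.Agent.W398.AC.DIM.t Pool.Agent.W193.AC.FINQ.t
      Pool.Agent.W989.AC.MULT.t)
    (Pool.Agent.W395.AC.LOCM.t Pool.Agent.W989.AC.MULT.t Pool.Agent.W597.AC.t)
    (Pool.Agent.W410.AC.t Pool.Agent.W131.AC.t) Pool.Agent.W803.AC.t Pool.Agent.W460.AC.t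

lemma logdisc_nonneg' (L : Type) [Field L] [NumberField L] :
    0 ≤ Real.log |(discr L : ℝ)| := by
  refine Real.log_nonneg ?_
  have h5 : (1 : ℤ) ≤ |discr L| := Int.one_le_abs (discr_ne_zero L)
  have h6 : |(discr L : ℝ)| = ((|discr L| : ℤ) : ℝ) := by push_cast; rfl
  rw [h6]
  exact_mod_cast h5

lemma cc_nonneg {L : Type} [Field L] [NumberField L] (S : Finset ℕ)
    (Q : HeightOneSpectrum (𝓞 L) → Prop) : 0 ≤ Pool.Agent.W223.CV.cc S Q := by
  unfold Pool.Agent.W223.CV.cc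
  exact finsum_nonneg fun v => Pool.Agent.W223.CV.ct_nonneg S Q v

/-- **truncated counting functions on one curve outside the exceptional set** -/
theorem trunc (A : Type) [CommRing A] [IsDedekindDomain A] [Algebra ℚ A] [Algebra ℚ[X] A]
    [IsScalarTower ℚ ℚ[X] A] [Module.Finite ℚ[X] A] [FaithfulSMul ℚ[X] A]
    (q : ℕ) (hq : 3 ≤ q) (a : Fin q → ℚ) (κ : ℝ) (u : Fin q → ℕ)
    (y : ∀ j, Fin (u j) → A) (E : Fin q → Ideal A) (hE : ∀ j, E j ≠ ⊥)
    (hyE : ∀ j i, ∀ e ∈ E j,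
      y j i * e ∈ (Ideal.span {tt A - algebraMap ℚ[X] A (C (a j))}).radical)
    (ε : ℝ) (hε : 0 < ε) :
    ∃ C₀ : ℝ, ∀ x : ℂ, x ∉ exc a κ → ∀ f : ℤ[X], Irreducible f → 2 ≤ f.natDegree →
      aeval x f = 0 → ∀ (L : IntermediateField ℚ ℂ) [NumberField L] (φ : A →+* L),
      (φ (tt A) : ℂ) = x → ∀ S : Finset ℕ, (∀ p ∈ S, p.Prime) →
        (q - (∑ j, (Module.finrank ℚ (A ⧸ E j) : ℝ)) / Module.finrank ℚ[X] A - κ - ε) *
            height f ≤
        Pool.Agent.W223.CV.cc S (fun v : HeightOneSpectrum (𝓞 L) =>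
          v.valuation L (φ (tt A)) ≤ 1 ∧
            ∃ j, v.valuation L (φ (tt A) - (a j : L)) < 1 ∧
              ∀ i, v.valuation L (φ (y j i)) < 1) / Module.finrank ℚ L +
          Real.log |(discr L : ℝ)| / Module.finrank ℚ L + ∑ p ∈ S, Real.log p + C₀ := by
  classical
  have hq0 : (0 : ℝ) < q := by exact_mod_cast (show 0 < q by omega)
  obtain ⟨M, Ck, G, hM, hCk, hG, hkey⟩ := Pool.Agent.W223.AC.key partNB
    Pool.Agent.W460.AC.t Pool.Agent.W989.AC.MULT.t Pool.Agent.W597.AC.t A (by omega : 1 ≤ q)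
    a u y E hE hyE ε hε
  have hfinG : (G.rootSet ℂ).Finite := Polynomial.rootSet_finite G ℂ
  choose ch hch0 hch using height_bound
  obtain ⟨ν, hν⟩ : ∃ ν : ℝ, ν = (∑ j, (Module.finrank ℚ (A ⧸ E j) : ℝ)) /
    Module.finrank ℚ[X] A := ⟨_, rfl⟩
  rw [← hν]
  have hν0 : 0 ≤ ν + ε := by rw [hν]; positivity
  obtain ⟨cc₀, hcc₀⟩ : ∃ cc₀ : ℂ → ℝ, cc₀ = fun x => |(q : ℝ) - ν - κ - ε| * ch x := ⟨_, rfl⟩
  have hcc0 : ∀ x, 0 ≤ cc₀ x := by
    intro x
    rw [hcc₀]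
    exact mul_nonneg (abs_nonneg _) (hch0 x)
  have hT0 : 0 ≤ ∑ p ∈ M.primeFactors, Real.log (p : ℝ) :=
    Finset.sum_nonneg fun p _ => Real.log_natCast_nonneg p
  have hR0 : 0 ≤ ∑ x ∈ hfinG.toFinset, cc₀ x := Finset.sum_nonneg fun x _ => hcc0 x
  refine ⟨Ck + ∑ p ∈ M.primeFactors, Real.log (p : ℝ) + ∑ x ∈ hfinG.toFinset, cc₀ x, ?_⟩
  intro x hxE f hf hd hx L _ φ hφ S hS
  have hxf := Pool.Agent.W223.AC.MR.aeval_L _ hφ f hx
  have hne := fun k => Pool.Agent.W223.AC.MR.ne_rat hd hf rfl hxf (a k)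
  have hLpos : (0 : ℝ) < Module.finrank ℚ L := by exact_mod_cast Module.finrank_pos
  have hdL := logdisc_nonneg' L
  have hS0 : 0 ≤ ∑ p ∈ S, Real.log (p : ℝ) :=
    Finset.sum_nonneg fun p _ => Real.log_natCast_nonneg p
  obtain ⟨N0, hN0⟩ : ∃ N0 : ℝ, N0 = Pool.Agent.W223.CV.cc S
    (fun v : HeightOneSpectrum (𝓞 L) => v.valuation L (φ (tt A)) ≤ 1 ∧
      ∃ j, v.valuation L (φ (tt A) - (a j : L)) < 1 ∧
        ∀ i, v.valuation L (φ (y j i)) < 1) := ⟨_, rfl⟩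
  rw [← hN0]
  have hN00 : 0 ≤ N0 := by rw [hN0]; exact cc_nonneg S _
  by_cases hGx : aeval x G = 0
  · have hxR : x ∈ hfinG.toFinset :=
      (Set.Finite.mem_toFinset hfinG).2 ((Polynomial.mem_rootSet_of_ne hG).mpr hGx)
    have h2 : ((q : ℝ) - ν - κ - ε) * height f ≤ |(q : ℝ) - ν - κ - ε| * ch x := by
      have h3 := height_nonneg hf.ne_zero
      exact mul_le_mul (le_abs_self _) (hch x f hf hd hx) h3 (abs_nonneg _)
    have h3 : cc₀ x ≤ ∑ x ∈ hfinG.toFinset, cc₀ x :=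
      Finset.single_le_sum (fun z (_ : z ∈ hfinG.toFinset) => hcc0 z) hxR
    have h4 : cc₀ x = |(q : ℝ) - ν - κ - ε| * ch x := by rw [hcc₀]
    have h5 : 0 ≤ Real.log |(discr L : ℝ)| / Module.finrank ℚ L := div_nonneg hdL hLpos.le
    have h6 : 0 ≤ N0 / Module.finrank ℚ L := div_nonneg hN00 hLpos.le
    linarith
  · have hk : cnt (S ∪ M.primeFactors) (fun j => pt (a j)) (φ (tt A)) ≤ N0 +
        (ν + ε) * Real.log (Height.mulHeight₁ (φ (tt A))) + Module.finrank ℚ L * Ck := by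
      rw [hN0, hν]
      exact hkey S L φ (Pool.Agent.W223.AC.MR.aeval_ne _ hφ G hGx) hne
    have hTp : ∀ p ∈ S ∪ M.primeFactors, p.Prime := by
      intro p hp
      rcases Finset.mem_union.mp hp with h | h
      · exact hS p h
      · exact Nat.prime_of_mem_primeFactors h
    have hMH := Pool.Agent.W469.CV.MH.t L (φ (tt A)) f hf (by omega) hxf
    have e4 : height f = Real.log (Pool.Agent.H813R3.Voj.mahler f) / f.natDegree := rfl
    rw [← e4] at hMH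
    have hL := toL a κ hf hd hx hxE L (φ (tt A)) hφ
    have hout := cnt_out a (S ∪ M.primeFactors) hTp (φ (tt A)) hne
    have hun : ∑ p ∈ S ∪ M.primeFactors, Real.log (p : ℝ) ≤
        ∑ p ∈ S, Real.log (p : ℝ) + ∑ p ∈ M.primeFactors, Real.log (p : ℝ) := by
      rw [← Finset.sum_union_inter]
      have : 0 ≤ ∑ p ∈ S ∩ M.primeFactors, Real.log (p : ℝ) :=
        Finset.sum_nonneg fun p _ => Real.log_natCast_nonneg p
      linarith
    obtain ⟨c1, hc1⟩ : ∃ c1 : ℝ, c1 = cnt ∅ (fun j => pt (a j)) (φ (tt A)) := ⟨_, rfl⟩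
    obtain ⟨c2, hc2⟩ : ∃ c2 : ℝ, c2 = cnt (S ∪ M.primeFactors) (fun j => pt (a j)) (φ (tt A)) :=
      ⟨_, rfl⟩
    rw [← hc2] at hk
    rw [← hc1, ← hc2] at hout
    rw [← hc1] at hL
    have h8 := mul_le_mul_of_nonneg_left hMH hν0
    obtain ⟨D, hD⟩ : ∃ D : ℝ, D = (Module.finrank ℚ L : ℝ) := ⟨_, rfl⟩
    rw [← hD] at hout hL hLpos h8 hk ⊢
    have h9 : c1 / D ≤ N0 / D + (ν + ε) * height f + Ck + ∑ p ∈ S, Real.log (p : ℝ) +
        ∑ p ∈ M.primeFactors, Real.log (p : ℝ) := by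
      have h10 := mul_le_mul_of_nonneg_left hun hLpos.le
      rw [div_le_iff₀ hLpos, add_mul, add_mul, add_mul, add_mul, div_mul_cancel₀ _ hLpos.ne']
      linarith
    have h11 : ((q : ℝ) - ν - κ - ε) * height f = (q - κ) * height f - (ν + ε) * height f := by
      ring
    rw [h11]
    linarith

end Pool.Agent.R337.UE
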